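import Pool.Agent.W795.Ode

/-!
`L = d⁴/dx⁴ + e^{ix}` has the multiplier curve of `d⁴/dx⁴` but is not a polynomial in a Hill
operator.
-/

namespace Pool.Agent.Results.MP_214325_an.QuarticExample

open Filter Topology Set

noncomputable section

/-! ### Definitions -/

/-- The operator `d^n/dx^n + ∑_{k ≤ n-2} p_k(x) d^k/dx^k` applied to a function `f`. -/
def opL (n : ℕ) (p : Fin (n - 1) → ℝ → ℂ) (f : ℝ → ℂ) (x : ℝ) : ℂ :=
  iteratedDeriv n f x + ∑ k : Fin (n - 1), p k x * iteratedDeriv k f x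

/-- `T` is the Floquet matrix of the operator at `lam`, for the period `b`. -/
def IsFloquet (n : ℕ) (b : ℝ) (p : Fin (n - 1) → ℝ → ℂ) (lam : ℂ)
    (T : Matrix (Fin n) (Fin n) ℂ) : Prop :=
  ∃ u : Fin n → ℝ → ℂ, (∀ j, ContDiff ℝ n (u j)) ∧ (∀ j x, opL n p (u j) x = lam * u j x) ∧
    (∀ j k : Fin n, iteratedDeriv k (u j) 0 = if j = k then 1 else 0) ∧
    ∀ k j : Fin n, T k j = iteratedDeriv k (u j) b

/-- The characteristic polynomial `P(r; lam) = det (r I - T(lam))`. -/
def charP {n : ℕ} (T : Matrix (Fin n) (Fin n) ℂ) (r : ℂ) : ℂ :=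
  (r • (1 : Matrix (Fin n) (Fin n) ℂ) - T).det

/-- The product `∏_j (r + r⁻¹ - Δ(w_j))` over the roots `w_j` of `R(w) = lam` with
multiplicity. -/
def branchProd (R : Polynomial ℂ) (Δ : ℂ → ℂ) (lam r : ℂ) : ℂ :=
  ((R - Polynomial.C lam).roots.map (fun w => r + r⁻¹ - Δ w)).prod

/-- The Hill operator `d²/dx² + q` applied to `f`. -/
def hill (q : ℝ → ℂ) (f : ℝ → ℂ) (x : ℝ) : ℂ := iteratedDeriv 2 f x + q x * f x

/-- The operator `R(H)` applied to `f`. -/
def polyHill (R : Polynomial ℂ) (q : ℝ → ℂ) (f : ℝ → ℂ) (x : ℝ) : ℂ :=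
  ∑ k ∈ Finset.range (R.natDegree + 1), R.coeff k * ((hill q)^[k] f) x

/-! ### The linear system -/

/-- phase space -/
abbrev E4 : Type := Fin 4 → ℂ

/-- shift part -/
def Sop : E4 →L[ℂ] E4 :=
  ContinuousLinearMap.pi ![ContinuousLinearMap.proj 1, ContinuousLinearMap.proj 2,
    ContinuousLinearMap.proj 3, 0]

/-- corner part -/
def Bop : E4 →L[ℂ] E4 :=
  ContinuousLinearMap.pi ![0, 0, 0, ContinuousLinearMap.proj 0]

lemma Sop_apply (y : E4) : Sop y = ![y 1, y 2, y 3, 0] := by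
  ext i; fin_cases i <;> rfl

lemma Bop_apply (y : E4) : Bop y = ![0, 0, 0, y 0] := by
  ext i; fin_cases i <;> rfl

/-- `e^{ix}` -/
def ee (x : ℝ) : ℂ := Complex.exp (x * Complex.I)

/-- coefficient matrix at `λ = 0` -/
def B0 (x : ℝ) : E4 →L[ℂ] E4 := Sop - ee x • Bop

lemma continuous_ee : Continuous ee := by unfold ee; fun_prop

lemma continuous_B0 : Continuous B0 := by
  unfold B0
  exact continuous_const.sub (continuous_ee.smul continuous_const)

/-- the right hand side -/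
lemma rhs_eq (l : ℂ) (x : ℝ) (y : E4) : B0 x y + l • Bop y =
    ![y 1, y 2, y 3, (l - ee x) * y 0] := by
  simp only [B0, sub_apply, smul_apply, Sop_apply,
    Bop_apply]
  ext i
  fin_cases i <;> simp
  ring

/-- system solution -/
def IsSol (l : ℂ) (Y : ℝ → E4) : Prop := ∀ x, HasDerivAt Y (B0 x (Y x) + l • Bop (Y x)) x

lemma isSol_iff (l : ℂ) (Y : ℝ → E4) : IsSol l Y ↔ ∀ x,
    HasDerivAt (fun x => Y x 0) (Y x 1) x ∧ HasDerivAt (fun x => Y x 1) (Y x 2) x ∧
    HasDerivAt (fun x => Y x 2) (Y x 3) x ∧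
    HasDerivAt (fun x => Y x 3) ((l - ee x) * Y x 0) x := by
  unfold IsSol
  apply forall_congr'
  intro x
  rw [rhs_eq, hasDerivAt_pi]
  constructor
  · intro h
    exact ⟨h 0, h 1, h 2, h 3⟩
  · rintro ⟨h0, h1, h2, h3⟩ i
    fin_cases i
    · exact h0
    · exact h1
    · exact h2
    · exact h3

lemma sol_unique {l : ℂ} {Y Z : ℝ → E4} (hY : IsSol l Y) (hZ : IsSol l Z) (h0 : Y 0 = Z 0) :
    Y = Z := by
  have h1 : Continuous fun x => B0 x + l • Bop := continuous_B0.add continuous_const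
  have hAc : Continuous fun x => ((B0 x + l • Bop).restrictScalars ℝ : E4 →L[ℝ] E4) :=
    (ContinuousLinearMap.restrictScalarsL ℂ E4 E4 ℝ ℝ).continuous.comp h1
  exact Pool.Agent.W795.linear_unique hAc (fun x => hY x) (fun x => hZ x) h0

lemma sol_sum {l : ℂ} (Y : Fin 4 → ℝ → E4) (hY : ∀ j, IsSol l (Y j)) (c : Fin 4 → ℂ) :
    IsSol l (fun x => ∑ j, c j • Y j x) := by
  intro x
  have h : HasDerivAt (fun x => ∑ j, c j • Y j x)
      (∑ j, c j • (B0 x (Y j x) + l • Bop (Y j x))) x :=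
    HasDerivAt.fun_sum fun j _ => (hY j x).const_smul (c j)
  refine h.congr_deriv ?_
  simp only [map_sum, map_smul, smul_add, Finset.sum_add_distrib, Finset.smul_sum]
  congr 1
  refine Finset.sum_congr rfl fun j _ => ?_
  rw [smul_comm]

/-- the fundamental family -/
def YY (j : Fin 4) : ℂ → ℝ → E4 :=
  (Pool.Agent.W795.exists_entire continuous_B0 Bop (Pi.single j 1)).choose

lemma YY_zero (j : Fin 4) (l : ℂ) : YY j l 0 = Pi.single j 1 :=
  (Pool.Agent.W795.exists_entire continuous_B0 Bop (Pi.single j 1)).choose_spec.1 l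

lemma YY_sol (j : Fin 4) (l : ℂ) : IsSol l (YY j l) :=
  (Pool.Agent.W795.exists_entire continuous_B0 Bop (Pi.single j 1)).choose_spec.2.1 l

lemma YY_diff (j : Fin 4) (x : ℝ) : Differentiable ℂ (fun l => YY j l x) :=
  (Pool.Agent.W795.exists_entire continuous_B0 Bop (Pi.single j 1)).choose_spec.2.2 x

/-- the monodromy matrix -/
def TT (l : ℂ) : Matrix (Fin 4) (Fin 4) ℂ := Matrix.of fun k j => YY j l (2 * Real.pi) k

lemma TT_mulVec {l : ℂ} {Y : ℝ → E4} (hY : IsSol l Y) :
    (TT l).mulVec (Y 0) = Y (2 * Real.pi) := by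
  have h1 : Y = fun x => ∑ j, Y 0 j • YY j l x := by
    apply sol_unique hY (sol_sum _ (fun j => YY_sol j l) _)
    simp only [YY_zero]
    ext i
    simp [Finset.sum_apply, Pi.single_apply]
  have h2 := congrFun h1 (2 * Real.pi)
  rw [h2]
  ext k
  simp only [Matrix.mulVec, dotProduct, TT, Matrix.of_apply, Finset.sum_apply, Pi.smul_apply,
    smul_eq_mul]
  exact Finset.sum_congr rfl fun j _ => mul_comm _ _

/-! ### Passage between the equation and the system -/

/-- coefficients of the example -/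
def pp : Fin 3 → ℝ → ℂ := ![ee, 0, 0]

lemma opL_eq (f : ℝ → ℂ) (x : ℝ) : opL 4 pp f x = iteratedDeriv 4 f x + ee x * f x := by
  rw [opL]
  have : (∑ k : Fin (4 - 1), pp k x * iteratedDeriv k f x) = ee x * f x := by
    change (∑ k : Fin 3, pp k x * iteratedDeriv k f x) = ee x * f x
    rw [Fin.sum_univ_three]
    simp [pp]
  rw [this]

lemma iter_of_sol {l : ℂ} {Y : ℝ → E4} (hY : IsSol l Y) :
    iteratedDeriv 0 (fun x => Y x 0) = (fun x => Y x 0) ∧
    iteratedDeriv 1 (fun x => Y x 0) = (fun x => Y x 1) ∧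
    iteratedDeriv 2 (fun x => Y x 0) = (fun x => Y x 2) ∧
    iteratedDeriv 3 (fun x => Y x 0) = (fun x => Y x 3) ∧
    iteratedDeriv 4 (fun x => Y x 0) = (fun x => (l - ee x) * Y x 0) := by
  rw [isSol_iff] at hY
  have h0 : iteratedDeriv 0 (fun x => Y x 0) = (fun x => Y x 0) := iteratedDeriv_zero
  have h1 : iteratedDeriv 1 (fun x => Y x 0) = (fun x => Y x 1) := by
    rw [iteratedDeriv_succ, h0]; funext x; exact (hY x).1.deriv
  have h2 : iteratedDeriv 2 (fun x => Y x 0) = (fun x => Y x 2) := by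
    rw [iteratedDeriv_succ, h1]; funext x; exact (hY x).2.1.deriv
  have h3 : iteratedDeriv 3 (fun x => Y x 0) = (fun x => Y x 3) := by
    rw [iteratedDeriv_succ, h2]; funext x; exact (hY x).2.2.1.deriv
  have h4 : iteratedDeriv 4 (fun x => Y x 0) = (fun x => (l - ee x) * Y x 0) := by
    rw [iteratedDeriv_succ, h3]; funext x; exact (hY x).2.2.2.deriv
  exact ⟨h0, h1, h2, h3, h4⟩

lemma contDiff_of_sol {l : ℂ} {Y : ℝ → E4} (hY : IsSol l Y) :
    ContDiff ℝ 4 (fun x => Y x 0) := by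
  obtain ⟨h0, h1, h2, h3, h4⟩ := iter_of_sol hY
  rw [isSol_iff] at hY
  apply contDiff_of_differentiable_iteratedDeriv (n := 4)
  intro m hm
  have hm' : m ≤ 4 := by exact_mod_cast hm
  interval_cases m
  · rw [h0]; exact fun x => (hY x).1.differentiableAt
  · rw [h1]; exact fun x => (hY x).2.1.differentiableAt
  · rw [h2]; exact fun x => (hY x).2.2.1.differentiableAt
  · rw [h3]; exact fun x => (hY x).2.2.2.differentiableAt
  · rw [h4]
    have : Differentiable ℝ ee := by unfold ee; fun_prop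
    exact fun x => ((differentiableAt_const l).sub (this x)).mul (hY x).1.differentiableAt

lemma sol_of_equation {l : ℂ} {u : ℝ → ℂ} (hu : ContDiff ℝ 4 u)
    (hl : ∀ x, opL 4 pp u x = l * u x) :
    IsSol l (fun x => ![iteratedDeriv 0 u x, iteratedDeriv 1 u x, iteratedDeriv 2 u x,
      iteratedDeriv 3 u x]) := by
  rw [isSol_iff]
  intro x
  have hd : ∀ m : ℕ, m < 4 → HasDerivAt (iteratedDeriv m u) (iteratedDeriv (m + 1) u x) x := by
    intro m hm
    have h1 : Differentiable ℝ (iteratedDeriv m u) :=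
      hu.differentiable_iteratedDeriv m (by exact_mod_cast hm)
    rw [iteratedDeriv_succ]
    exact (h1 x).hasDerivAt
  refine ⟨hd 0 (by norm_num), hd 1 (by norm_num), hd 2 (by norm_num), ?_⟩
  have h4 := hd 3 (by norm_num)
  have h5 := hl x
  rw [opL_eq] at h5
  have h6 : iteratedDeriv (3 + 1) u x = (l - ee x) * iteratedDeriv 0 u x := by
    rw [iteratedDeriv_zero]
    linear_combination h5
  rw [h6] at h4
  exact h4

lemma isFloquet_iff (l : ℂ) (T : Matrix (Fin 4) (Fin 4) ℂ) :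
    IsFloquet 4 (2 * Real.pi) pp l T ↔ T = TT l := by
  constructor
  · rintro ⟨u, hu1, hu2, hu3, hu4⟩
    have hY : ∀ j, (fun x => ![iteratedDeriv 0 (u j) x, iteratedDeriv 1 (u j) x,
        iteratedDeriv 2 (u j) x, iteratedDeriv 3 (u j) x]) = YY j l := by
      intro j
      apply sol_unique (sol_of_equation (hu1 j) (hu2 j)) (YY_sol j l)
      rw [YY_zero]
      ext i
      have hk := hu3 j i
      rw [Pi.single_apply]
      fin_cases i
      · simpa [eq_comm] using hk
      · simpa [eq_comm] using hk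
      · simpa [eq_comm] using hk
      · simpa [eq_comm] using hk
    ext k j
    rw [hu4, TT, Matrix.of_apply, ← hY j]
    fin_cases k <;> rfl
  · rintro rfl
    refine ⟨fun j x => YY j l x 0, fun j => contDiff_of_sol (YY_sol j l), fun j x => ?_,
      fun j k => ?_, fun k j => ?_⟩
    · rw [opL_eq, (iter_of_sol (YY_sol j l)).2.2.2.2]
      ring
    · obtain ⟨h0, h1, h2, h3, -⟩ := iter_of_sol (YY_sol j l)
      have hz : iteratedDeriv k (fun x => YY j l x 0) 0 = YY j l 0 k := by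
        fin_cases k
        · exact congrFun h0 0
        · exact congrFun h1 0
        · exact congrFun h2 0
        · exact congrFun h3 0
      rw [hz, YY_zero, Pi.single_apply]
      simp only [eq_comm]
    · obtain ⟨h0, h1, h2, h3, -⟩ := iter_of_sol (YY_sol j l)
      rw [TT, Matrix.of_apply]
      fin_cases k
      · exact (congrFun h0 _).symm
      · exact (congrFun h1 _).symm
      · exact (congrFun h2 _).symm
      · exact (congrFun h3 _).symm

/-! ### Floquet solutions for nonreal spectral parameter -/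

/-- coefficients of the Floquet solution -/
def co (κ : ℂ) : ℕ → ℂ
  | 0 => 1
  | m + 1 => -co κ m / ((κ + Complex.I * (m + 1)) ^ 4 - κ ^ 4)

lemma den_ne (κ : ℂ) (hκ : (κ ^ 4).im ≠ 0) (M : ℂ) (hM0 : M ≠ 0) (hM : (M ^ 4).im = 0) :
    (κ + Complex.I * M) ^ 4 - κ ^ 4 ≠ 0 := by
  intro h
  have hI : Complex.I ^ 2 = -1 := Complex.I_sq
  have hf : (Complex.I * M) * ((2 * κ + Complex.I * M) *
      (((1 - Complex.I) * κ + Complex.I * M) * ((1 + Complex.I) * κ + Complex.I * M))) = 0 := by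
    rw [← h]
    linear_combination (-(Complex.I * M) * (2 * κ + Complex.I * M) * κ ^ 2) * hI
  have hIM : Complex.I * M ≠ 0 := mul_ne_zero Complex.I_ne_zero hM0
  have hI4 : Complex.I ^ 4 = 1 := Complex.I_pow_four
  rcases mul_eq_zero.mp hf with h1 | h1
  · exact hIM h1
  rcases mul_eq_zero.mp h1 with h2 | h2
  · have e : 16 * κ ^ 4 = M ^ 4 := by
      have : 2 * κ = -(Complex.I * M) := by linear_combination h2
      calc 16 * κ ^ 4 = (2 * κ) ^ 4 := by ring
        _ = Complex.I ^ 4 * M ^ 4 := by rw [this]; ring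
        _ = M ^ 4 := by rw [hI4, one_mul]
    have h3 := congrArg Complex.im e
    rw [hM] at h3
    simp only [Complex.mul_im, Complex.re_ofNat, Complex.im_ofNat, zero_mul, add_zero] at h3
    apply hκ; linarith
  rcases mul_eq_zero.mp h2 with h3 | h3
  · have e : (-4) * κ ^ 4 = M ^ 4 := by
      have : (1 - Complex.I) * κ = -(Complex.I * M) := by linear_combination h3
      have h4 : (1 - Complex.I) ^ 4 = -4 := by
        have : (1 - Complex.I) ^ 2 = -2 * Complex.I := by linear_combination hI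
        calc (1 - Complex.I) ^ 4 = ((1 - Complex.I) ^ 2) ^ 2 := by ring
          _ = 4 * Complex.I ^ 2 := by rw [this]; ring
          _ = -4 := by rw [hI]; ring
      calc (-4) * κ ^ 4 = ((1 - Complex.I) * κ) ^ 4 := by rw [mul_pow, h4]
        _ = Complex.I ^ 4 * M ^ 4 := by rw [this]; ring
        _ = M ^ 4 := by rw [hI4, one_mul]
    have h5 := congrArg Complex.im e
    rw [hM] at h5
    simp only [Complex.mul_im, Complex.neg_re, Complex.neg_im, Complex.re_ofNat,
      Complex.im_ofNat, neg_zero, zero_mul, add_zero] at h5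
    apply hκ; linarith
  · have e : (-4) * κ ^ 4 = M ^ 4 := by
      have : (1 + Complex.I) * κ = -(Complex.I * M) := by linear_combination h3
      have h4 : (1 + Complex.I) ^ 4 = -4 := by
        have : (1 + Complex.I) ^ 2 = 2 * Complex.I := by linear_combination hI
        calc (1 + Complex.I) ^ 4 = ((1 + Complex.I) ^ 2) ^ 2 := by ring
          _ = 4 * Complex.I ^ 2 := by rw [this]; ring
          _ = -4 := by rw [hI]; ring
      calc (-4) * κ ^ 4 = ((1 + Complex.I) * κ) ^ 4 := by rw [mul_pow, h4]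
        _ = Complex.I ^ 4 * M ^ 4 := by rw [this]; ring
        _ = M ^ 4 := by rw [hI4, one_mul]
    have h5 := congrArg Complex.im e
    rw [hM] at h5
    simp only [Complex.mul_im, Complex.neg_re, Complex.neg_im, Complex.re_ofNat,
      Complex.im_ofNat, neg_zero, zero_mul, add_zero] at h5
    apply hκ; linarith

lemma natCast_pow_im (m : ℕ) : (((m : ℂ) + 1) ^ 4).im = 0 := by
  have : ((m : ℂ) + 1) ^ 4 = (((m + 1) ^ 4 : ℕ) : ℂ) := by push_cast; ring
  rw [this, Complex.natCast_im]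

lemma den_ne' (κ : ℂ) (hκ : (κ ^ 4).im ≠ 0) (m : ℕ) :
    (κ + Complex.I * (m + 1)) ^ 4 - κ ^ 4 ≠ 0 :=
  den_ne κ hκ (m + 1) (by exact_mod_cast Nat.succ_ne_zero m) (natCast_pow_im m)

lemma co_rec (κ : ℂ) (hκ : (κ ^ 4).im ≠ 0) (m : ℕ) :
    (κ + Complex.I * (m + 1)) ^ 4 * co κ (m + 1) = κ ^ 4 * co κ (m + 1) - co κ m := by
  have h := den_ne' κ hκ m
  have e : co κ (m + 1) = -co κ m / ((κ + Complex.I * (m + 1)) ^ 4 - κ ^ 4) := rfl
  have e2 : co κ (m + 1) * ((κ + Complex.I * (m + 1)) ^ 4 - κ ^ 4) = -co κ m := by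
    rw [e, div_mul_cancel₀ _ h]
  linear_combination e2

lemma summable_co (κ : ℂ) : Summable (co κ) := by
  refine summable_of_ratio_norm_eventually_le (r := 1 / 2) (by norm_num) ?_
  obtain ⟨N, hN⟩ := exists_nat_gt (‖κ‖ + ‖κ ^ 4‖ + 2)
  filter_upwards [eventually_ge_atTop N] with m hm
  have hm' : (N : ℝ) ≤ m := by exact_mod_cast hm
  have e : co κ (m + 1) = -co κ m / ((κ + Complex.I * (m + 1)) ^ 4 - κ ^ 4) := rfl
  rw [e, norm_div, norm_neg]
  have h1 : ‖κ ^ 4‖ + 2 ≤ ‖κ + Complex.I * (m + 1)‖ := by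
    have h2 : ‖Complex.I * ((m : ℂ) + 1)‖ = m + 1 := by
      rw [norm_mul, Complex.norm_I, one_mul]
      have : ((m : ℂ) + 1) = (((m + 1 : ℕ)) : ℂ) := by push_cast; ring
      rw [this, Complex.norm_natCast]; push_cast; ring
    have h3 := norm_sub_norm_le (Complex.I * ((m : ℂ) + 1)) (-κ)
    rw [norm_neg, h2, sub_neg_eq_add, add_comm _ κ] at h3
    linarith
  have h4 : 2 ≤ ‖(κ + Complex.I * (m + 1)) ^ 4 - κ ^ 4‖ := by
    have h5 := norm_sub_norm_le ((κ + Complex.I * (m + 1)) ^ 4) (κ ^ 4)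
    have h6 : ‖κ + Complex.I * (m + 1)‖ ≤ ‖(κ + Complex.I * (m + 1)) ^ 4‖ := by
      rw [norm_pow]
      exact le_self_pow₀ (by linarith [norm_nonneg (κ ^ 4)]) (by norm_num)
    linarith
  rw [div_le_iff₀ (by linarith)]
  nlinarith [norm_nonneg (co κ m)]

/-- weights -/
def wt (κ : ℂ) (m : ℕ) : ℝ := (1 + ‖κ + Complex.I * m‖ ^ 4) * ‖co κ m‖

lemma summable_wt (κ : ℂ) (hκ : (κ ^ 4).im ≠ 0) : Summable (wt κ) := by
  have hs := (summable_co κ).norm
  have h1 : Summable (fun m => ‖co κ (m + 1)‖) := (summable_nat_add_iff 1).mpr hs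
  rw [← summable_nat_add_iff 1]
  refine Summable.of_nonneg_of_le (fun m => by unfold wt; positivity) (fun m => ?_)
    (((h1.mul_left (1 + ‖κ ^ 4‖)).add hs))
  have h2 := co_rec κ hκ m
  have h3 : ‖κ + Complex.I * (m + 1)‖ ^ 4 * ‖co κ (m + 1)‖ ≤
      ‖κ ^ 4‖ * ‖co κ (m + 1)‖ + ‖co κ m‖ := by
    rw [← norm_pow, ← norm_mul, h2, ← norm_mul]
    exact norm_sub_le _ _
  have e : wt κ (m + 1) = ‖co κ (m + 1)‖ + ‖κ + Complex.I * (m + 1)‖ ^ 4 * ‖co κ (m + 1)‖ := by
    rw [wt]; push_cast; ring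
  rw [e]
  linarith

/-- terms of the differentiated series -/
def term (κ : ℂ) (k m : ℕ) (x : ℝ) : ℂ :=
  (κ + Complex.I * m) ^ k * co κ m * Complex.exp ((κ + Complex.I * m) * x)

/-- the sums -/
def SS (κ : ℂ) (k : ℕ) (x : ℝ) : ℂ := ∑' m, term κ k m x

lemma norm_exp_le (κ : ℂ) (m : ℕ) (x : ℝ) :
    ‖Complex.exp ((κ + Complex.I * m) * x)‖ ≤ Real.exp (‖κ‖ * |x|) := by
  rw [Complex.norm_exp]
  apply Real.exp_le_exp.mpr
  have : ((κ + Complex.I * m) * x).re = κ.re * x := by simp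
  rw [this]
  calc κ.re * x ≤ |κ.re * x| := le_abs_self _
    _ = |κ.re| * |x| := abs_mul _ _
    _ ≤ ‖κ‖ * |x| := mul_le_mul_of_nonneg_right (Complex.abs_re_le_norm κ) (abs_nonneg _)

lemma norm_term_le (κ : ℂ) (k m : ℕ) (hk : k ≤ 4) (x : ℝ) :
    ‖term κ k m x‖ ≤ wt κ m * Real.exp (‖κ‖ * |x|) := by
  rw [term, norm_mul, norm_mul, norm_pow, wt]
  have h1 : ‖κ + Complex.I * m‖ ^ k ≤ 1 + ‖κ + Complex.I * m‖ ^ 4 := by
    rcases le_total ‖κ + Complex.I * m‖ 1 with h | h
    · have : ‖κ + Complex.I * m‖ ^ k ≤ 1 := pow_le_one₀ (norm_nonneg _) h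
      have h2 : 0 ≤ ‖κ + Complex.I * m‖ ^ 4 := by positivity
      linarith
    · have := pow_le_pow_right₀ h hk
      linarith
  exact mul_le_mul (mul_le_mul_of_nonneg_right h1 (norm_nonneg _)) (norm_exp_le κ m x)
    (norm_nonneg _) (by positivity)

lemma summable_term (κ : ℂ) (hκ : (κ ^ 4).im ≠ 0) (k : ℕ) (hk : k ≤ 4) (x : ℝ) :
    Summable (fun m => term κ k m x) :=
  Summable.of_norm_bounded ((summable_wt κ hκ).mul_right _) (fun m => norm_term_le κ k m hk x)

lemma hasDerivAt_term (κ : ℂ) (k m : ℕ) (x : ℝ) :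
    HasDerivAt (fun x : ℝ => term κ k m x) (term κ (k + 1) m x) x := by
  have h1 : HasDerivAt (fun x : ℝ => (κ + Complex.I * m) * (x : ℂ)) (κ + Complex.I * m) x := by
    have := (Complex.ofRealCLM.hasDerivAt (x := x)).const_mul (κ + Complex.I * m)
    simpa using this
  refine ((h1.cexp).const_mul ((κ + Complex.I * m) ^ k * co κ m)).congr_deriv ?_
  rw [term, pow_succ]
  ring

lemma hasDerivAt_SS (κ : ℂ) (hκ : (κ ^ 4).im ≠ 0) (k : ℕ) (hk : k ≤ 3) (x : ℝ) :
    HasDerivAt (SS κ k) (SS κ (k + 1) x) x := by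
  set R : ℝ := |x| + 1 with hR
  have hR0 : 0 < R := by positivity
  refine hasDerivAt_tsum_of_isPreconnected (t := Metric.ball (0:ℝ) R) (y₀ := 0)
    (u := fun m => wt κ m * Real.exp (‖κ‖ * R))
    ((summable_wt κ hκ).mul_right _) Metric.isOpen_ball (convex_ball (0:ℝ) R).isPreconnected
    (fun m y _ => hasDerivAt_term κ k m y) ?_ (Metric.mem_ball_self hR0)
    (summable_term κ hκ k (by omega) 0) ?_
  · intro m y hy
    refine (norm_term_le κ (k + 1) m (by omega) y).trans ?_
    have hy' : |y| ≤ R := by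
      rw [Metric.mem_ball, dist_zero_right, Real.norm_eq_abs] at hy
      exact hy.le
    apply mul_le_mul_of_nonneg_left _ (by unfold wt; positivity)
    apply Real.exp_le_exp.mpr
    exact mul_le_mul_of_nonneg_left hy' (norm_nonneg _)
  · rw [Metric.mem_ball, dist_zero_right, Real.norm_eq_abs, hR]; linarith

lemma SS_four (κ : ℂ) (hκ : (κ ^ 4).im ≠ 0) (x : ℝ) :
    SS κ 4 x = (κ ^ 4 - ee x) * SS κ 0 x := by
  have h4 := summable_term κ hκ 4 le_rfl x
  have h0 := summable_term κ hκ 0 (by norm_num) x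
  have e1 : SS κ 4 x = term κ 4 0 x + ∑' m, term κ 4 (m + 1) x := h4.tsum_eq_zero_add
  have e2 : SS κ 0 x = term κ 0 0 x + ∑' m, term κ 0 (m + 1) x := h0.tsum_eq_zero_add
  have h0' : Summable (fun m => term κ 0 (m + 1) x) := (summable_nat_add_iff 1).mpr h0
  have e3 : ∀ m, term κ 4 (m + 1) x = κ ^ 4 * term κ 0 (m + 1) x - ee x * term κ 0 m x := by
    intro m
    simp only [term, pow_zero, one_mul, Nat.cast_add, Nat.cast_one]
    have h1 := co_rec κ hκ m
    have h2 : Complex.exp ((κ + Complex.I * (m + 1)) * x) =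
        ee x * Complex.exp ((κ + Complex.I * m) * x) := by
      rw [ee, ← Complex.exp_add]; congr 1; ring
    rw [h1, h2]; ring
  simp only [e3] at e1
  rw [(h0'.mul_left _).tsum_sub (h0.mul_left _), tsum_mul_left, tsum_mul_left] at e1
  rw [e1]
  have e4 : term κ 4 0 x = κ ^ 4 * term κ 0 0 x := by
    simp [term]; ring
  rw [e4]
  have e5 : ∑' m, term κ 0 m x = SS κ 0 x := rfl
  rw [e5]
  linear_combination (-κ ^ 4) * e2

/-- the vector solution -/
def VV (κ : ℂ) (x : ℝ) : E4 := ![SS κ 0 x, SS κ 1 x, SS κ 2 x, SS κ 3 x]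

lemma VV_sol (κ : ℂ) (hκ : (κ ^ 4).im ≠ 0) : IsSol (κ ^ 4) (VV κ) := by
  rw [isSol_iff]
  intro x
  refine ⟨hasDerivAt_SS κ hκ 0 (by norm_num) x, hasDerivAt_SS κ hκ 1 (by norm_num) x,
    hasDerivAt_SS κ hκ 2 (by norm_num) x, ?_⟩
  have := hasDerivAt_SS κ hκ 3 le_rfl x
  rw [SS_four κ hκ] at this
  exact this

lemma SS_period (κ : ℂ) (k : ℕ) :
    SS κ k (2 * Real.pi) = Complex.exp (2 * Real.pi * κ) * SS κ k 0 := by
  rw [SS, SS, ← tsum_mul_left]
  congr 1
  funext m
  simp only [term, Complex.ofReal_zero, mul_zero, Complex.exp_zero, mul_one]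
  have : Complex.exp ((κ + Complex.I * m) * ((2 * Real.pi : ℝ) : ℂ)) =
      Complex.exp (2 * Real.pi * κ) := by
    have e : (κ + Complex.I * m) * ((2 * Real.pi : ℝ) : ℂ) =
        2 * Real.pi * κ + m * (2 * Real.pi * Complex.I) := by push_cast; ring
    rw [e, Complex.exp_add, Complex.exp_nat_mul_two_pi_mul_I, mul_one]
  rw [this]; ring

lemma VV_period (κ : ℂ) :
    VV κ (2 * Real.pi) = Complex.exp (2 * Real.pi * κ) • VV κ 0 := by
  ext i
  fin_cases i
  · exact SS_period κ 0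
  · exact SS_period κ 1
  · exact SS_period κ 2
  · exact SS_period κ 3

lemma VV_ne (κ : ℂ) (hκ : (κ ^ 4).im ≠ 0) : VV κ 0 ≠ 0 := by
  intro h0
  have hzero : VV κ = fun _ => 0 := by
    apply sol_unique (VV_sol κ hκ) _ h0
    intro x
    simpa using hasDerivAt_const x (0 : E4)
  -- the power series vanishes on the unit circle
  set f : ℂ → ℂ := fun z => ∑' m, co κ m * z ^ m with hf
  have hco := (summable_co κ).norm
  have hbd : ∀ (m : ℕ) (z : ℂ), ‖z‖ ≤ 1 → ‖co κ m * z ^ m‖ ≤ ‖co κ m‖ := by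
    intro m z hz
    rw [norm_mul, norm_pow]
    exact mul_le_of_le_one_right (norm_nonneg _) (pow_le_one₀ (norm_nonneg _) hz)
  have hdc : DiffContOnCl ℂ f (Metric.ball 0 1) := by
    refine ⟨?_, ?_⟩
    · exact Complex.differentiableOn_tsum_of_summable_norm hco
        (fun m => (by fun_prop : Differentiable ℂ fun z : ℂ => co κ m * z ^ m).differentiableOn)
        Metric.isOpen_ball (fun m z hz => hbd m z (by
          rw [Metric.mem_ball, dist_zero_right] at hz; exact hz.le))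
    · rw [closure_ball _ one_ne_zero]
      exact continuousOn_tsum (fun m => (by fun_prop : Continuous fun z : ℂ =>
        co κ m * z ^ m).continuousOn) hco (fun m z hz => hbd m z (by
          rw [Metric.mem_closedBall, dist_zero_right] at hz; exact hz))
  have hfr : ∀ z ∈ frontier (Metric.ball (0 : ℂ) 1), ‖f z‖ ≤ 0 := by
    intro z hz
    rw [frontier_ball _ one_ne_zero, mem_sphere_zero_iff_norm] at hz
    have hz2 : z = ee (Complex.arg z) := by
      have := Complex.norm_mul_exp_arg_mul_I z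
      rw [hz, Complex.ofReal_one, one_mul] at this
      rw [ee, this]
    have h1 : SS κ 0 (Complex.arg z) = 0 := by
      have := congrFun (congrFun hzero (Complex.arg z)) 0
      exact this
    have h2 : SS κ 0 (Complex.arg z) = Complex.exp (κ * Complex.arg z) * f z := by
      rw [SS, hf, ← tsum_mul_left]
      congr 1
      funext m
      simp only [term, pow_zero, one_mul]
      have : z ^ m = Complex.exp (m * (Complex.arg z * Complex.I)) := by
        rw [Complex.exp_nat_mul]; congr 1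
      rw [this, mul_comm (co κ m), mul_comm (co κ m), ← mul_assoc, ← Complex.exp_add]
      congr 2
      ring
    rw [h2] at h1
    have h3 := (mul_eq_zero.mp h1).resolve_left (Complex.exp_ne_zero _)
    rw [h3, norm_zero]
  have h4 := Complex.norm_le_of_forall_mem_frontier_norm_le Metric.isBounded_ball hdc hfr
    (subset_closure (Metric.mem_ball_self one_pos))
  have h5 : f 0 = 1 := by
    rw [hf]
    simp only
    rw [tsum_eq_single 0]
    · simp [co]
    · intro m hm; simp [hm]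
  rw [h5] at h4
  norm_num at h4

lemma root_of_charP (κ : ℂ) (hκ : (κ ^ 4).im ≠ 0) :
    (TT (κ ^ 4)).charpoly.IsRoot (Complex.exp (2 * Real.pi * κ)) := by
  rw [Polynomial.IsRoot, Matrix.eval_charpoly, ← Matrix.exists_mulVec_eq_zero_iff]
  refine ⟨VV κ 0, VV_ne κ hκ, ?_⟩
  rw [Matrix.sub_mulVec, TT_mulVec (VV_sol κ hκ), VV_period]
  simp [Matrix.scalar_apply]

/-! ### The characteristic polynomial -/

/-- the four multipliers -/
def mu (κ : ℂ) (s : Fin 4) : ℂ := Complex.exp (2 * Real.pi * (Complex.I ^ (s : ℕ) * κ))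

lemma mu_injective (κ : ℂ) (hκ : (κ ^ 4).im ≠ 0) : Function.Injective (mu κ) := by
  have hI2 : Complex.I ^ 2 = -1 := Complex.I_sq
  have hI3 : Complex.I ^ 3 = -Complex.I := Complex.I_pow_three
  have hI4 : Complex.I ^ 4 = 1 := Complex.I_pow_four
  -- a relation `κ * c = I * n` with `c ^ 4` a nonzero real number is impossible
  have key : ∀ (c : ℂ) (C : ℝ) (n : ℤ), C ≠ 0 → c ^ 4 = C → κ * c = Complex.I * n → False := by
    intro c C n hC hc h
    have h1 : κ ^ 4 * C = (n : ℂ) ^ 4 := by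
      rw [← hc, ← mul_pow, h, mul_pow, hI4, one_mul]
    have h2 := congrArg Complex.im h1
    have h3 : ((n : ℂ) ^ 4).im = 0 := by
      have : (n : ℂ) ^ 4 = ((n ^ 4 : ℤ) : ℂ) := by push_cast; ring
      rw [this, Complex.intCast_im]
    rw [h3, Complex.mul_im, Complex.ofReal_im, Complex.ofReal_re, mul_zero, zero_add] at h2
    exact (mul_ne_zero hκ hC) h2
  have h1I : (1 - Complex.I) ^ 4 = ((-4 : ℝ) : ℂ) := by
    have : (1 - Complex.I) ^ 2 = -2 * Complex.I := by linear_combination hI2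
    calc (1 - Complex.I) ^ 4 = ((1 - Complex.I) ^ 2) ^ 2 := by ring
      _ = 4 * Complex.I ^ 2 := by rw [this]; ring
      _ = ((-4 : ℝ) : ℂ) := by rw [hI2]; push_cast; ring
  have h1I' : (1 + Complex.I) ^ 4 = ((-4 : ℝ) : ℂ) := by
    have : (1 + Complex.I) ^ 2 = 2 * Complex.I := by linear_combination hI2
    calc (1 + Complex.I) ^ 4 = ((1 + Complex.I) ^ 2) ^ 2 := by ring
      _ = 4 * Complex.I ^ 2 := by rw [this]; ring
      _ = ((-4 : ℝ) : ℂ) := by rw [hI2]; push_cast; ring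
  have h16 : (2 : ℂ) ^ 4 = ((16 : ℝ) : ℂ) := by push_cast; norm_num
  have h16I : (2 * Complex.I) ^ 4 = ((16 : ℝ) : ℂ) := by
    rw [mul_pow, hI4]; push_cast; norm_num
  have lt_case : ∀ s t : Fin 4, s < t → mu κ s ≠ mu κ t := by
    intro s t hst h
    rw [mu, mu, Complex.exp_eq_exp_iff_exists_int] at h
    obtain ⟨n, hn⟩ := h
    have hpi : (2 * Real.pi : ℂ) ≠ 0 := by
      have := Real.pi_ne_zero
      exact mul_ne_zero two_ne_zero (by exact_mod_cast this)
    have h2 : κ * (Complex.I ^ (s : ℕ) - Complex.I ^ (t : ℕ)) = Complex.I * n := by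
      apply mul_left_cancel₀ hpi
      linear_combination hn
    fin_cases s <;> fin_cases t <;> simp only [Fin.lt_def] at hst
    all_goals first | (exfalso; revert hst; decide) | skip
    · refine key (1 - Complex.I) (-4) n (by norm_num) h1I ?_
      simpa using h2
    · refine key 2 16 n (by norm_num) h16 ?_
      simp only [pow_zero, hI2] at h2
      linear_combination h2
    · refine key (1 + Complex.I) (-4) n (by norm_num) h1I' ?_
      simp only [pow_zero, hI3] at h2
      linear_combination h2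
    · refine key (1 + Complex.I) (-4) n (by norm_num) h1I' ?_
      simp only [pow_one, hI2] at h2
      linear_combination h2
    · refine key (2 * Complex.I) 16 n (by norm_num) h16I ?_
      simp only [pow_one, hI3] at h2
      linear_combination h2
    · refine key (1 - Complex.I) (-4) (-n) (by norm_num) h1I ?_
      simp only [hI2, hI3] at h2
      push_cast
      linear_combination -h2
  intro s t h
  rcases lt_trichotomy s t with hst | hst | hst
  · exact absurd h (lt_case s t hst)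
  · exact hst
  · exact absurd h.symm (lt_case t s hst)

lemma charP_eq_generic (κ : ℂ) (hκ : (κ ^ 4).im ≠ 0) (r : ℂ) :
    charP (TT (κ ^ 4)) r = ∏ s : Fin 4, (r - mu κ s) := by
  have hI4 : Complex.I ^ 4 = 1 := Complex.I_pow_four
  have hroot : ∀ s : Fin 4, (Polynomial.X - Polynomial.C (mu κ s)) ∣ (TT (κ ^ 4)).charpoly := by
    intro s
    rw [Polynomial.dvd_iff_isRoot]
    have e : (Complex.I ^ (s : ℕ) * κ) ^ 4 = κ ^ 4 := by
      rw [mul_pow, ← pow_mul, mul_comm (s : ℕ) 4, pow_mul, hI4, one_pow, one_mul]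
    have := root_of_charP (Complex.I ^ (s : ℕ) * κ) (by rw [e]; exact hκ)
    rw [e] at this
    exact this
  have hdvd : (∏ s : Fin 4, (Polynomial.X - Polynomial.C (mu κ s))) ∣ (TT (κ ^ 4)).charpoly := by
    apply Finset.prod_dvd_of_coprime
    · intro s _ t _ hst
      exact Polynomial.pairwise_coprime_X_sub_C (mu_injective κ hκ) hst
    · intro s _; exact hroot s
  have hmonic : (∏ s : Fin 4, (Polynomial.X - Polynomial.C (mu κ s))).Monic :=
    Polynomial.monic_prod_of_monic _ _ (fun s _ => Polynomial.monic_X_sub_C _)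
  have hdeg : (∏ s : Fin 4, (Polynomial.X - Polynomial.C (mu κ s))).natDegree = 4 := by
    rw [Polynomial.natDegree_prod_of_monic _ _ (fun s _ => Polynomial.monic_X_sub_C _)]
    simp
  have heq := Polynomial.eq_of_monic_of_dvd_of_natDegree_le hmonic
    (Matrix.charpoly_monic (TT (κ ^ 4))) hdvd (by
      rw [hdeg, Matrix.charpoly_natDegree_eq_dim]; simp)
  have h1 : (TT (κ ^ 4)).charpoly.eval r = charP (TT (κ ^ 4)) r := by
    rw [Matrix.eval_charpoly, charP, Matrix.scalar_apply, Matrix.smul_one_eq_diagonal]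
  rw [← h1, heq, Polynomial.eval_prod]
  simp

/-- the entire function `Δ` with `Δ(z²) = 2 cosh(2πz)` -/
def DD (w : ℂ) : ℂ := ∑' n : ℕ, 2 * (((2 * Real.pi) ^ 2 * w) ^ n / ((2 * n).factorial : ℂ))

lemma DD_sq (z : ℂ) : DD (z ^ 2) = 2 * Complex.cosh (2 * Real.pi * z) := by
  rw [DD, ← (Complex.hasSum_cosh (2 * Real.pi * z)).tsum_eq, ← tsum_mul_left]
  congr 1
  funext n
  rw [← mul_pow, ← pow_mul]

lemma differentiable_DD : Differentiable ℂ DD := by
  intro z
  have hR : ‖z‖ < ‖z‖ + 1 := by linarith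
  have h := Complex.differentiableOn_tsum_of_summable_norm
    (U := Metric.ball (0 : ℂ) (‖z‖ + 1))
    (F := fun (n : ℕ) (w : ℂ) => 2 * (((2 * Real.pi) ^ 2 * w) ^ n / ((2 * n).factorial : ℂ)))
    (u := fun n : ℕ => 2 * (((2 * Real.pi) ^ 2 * (‖z‖ + 1)) ^ n / (n.factorial : ℝ)))
    ((Real.summable_pow_div_factorial _).mul_left 2)
    (fun n => (by fun_prop : Differentiable ℂ fun w : ℂ =>
      2 * (((2 * Real.pi) ^ 2 * w) ^ n / ((2 * n).factorial : ℂ))).differentiableOn)
    Metric.isOpen_ball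
    (fun n w hw => by
      rw [Metric.mem_ball, dist_zero_right] at hw
      rw [norm_mul, norm_div, norm_pow, norm_mul, Complex.norm_natCast, Complex.norm_ofNat]
      have e : ‖((2 * Real.pi) ^ 2 : ℂ)‖ = (2 * Real.pi) ^ 2 := by
        have : ((2 * Real.pi) ^ 2 : ℂ) = (((2 * Real.pi) ^ 2 : ℝ) : ℂ) := by push_cast; ring
        rw [this, Complex.norm_real, Real.norm_of_nonneg (by positivity)]
      rw [e]
      apply mul_le_mul_of_nonneg_left _ (by norm_num)
      apply div_le_div₀ (by positivity)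
      · gcongr
      · exact_mod_cast n.factorial_pos
      · exact_mod_cast Nat.factorial_le (by omega))
  exact h.differentiableAt (Metric.isOpen_ball.mem_nhds (by
    rw [Metric.mem_ball, dist_zero_right]; exact hR))

/-- right hand side -/
def QQ (κ r : ℂ) : ℂ := (r ^ 2 - r * DD (κ ^ 2) + 1) * (r ^ 2 - r * DD (-κ ^ 2) + 1)

lemma prod_mu (κ r : ℂ) : ∏ s : Fin 4, (r - mu κ s) = QQ κ r := by
  have hI2 : Complex.I ^ 2 = -1 := Complex.I_sq
  have hI3 : Complex.I ^ 3 = -Complex.I := Complex.I_pow_three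
  have e1 : DD (κ ^ 2) = mu κ 0 + mu κ 2 := by
    rw [DD_sq, Complex.cosh, mu, mu]
    have : Complex.I ^ (((2 : Fin 4) : ℕ)) * κ = -κ := by
      rw [show (((2 : Fin 4) : ℕ)) = 2 from rfl, hI2]; ring
    rw [this]
    simp only [Fin.val_zero, pow_zero, one_mul]
    rw [mul_neg]
    ring
  have e2 : DD (-κ ^ 2) = mu κ 1 + mu κ 3 := by
    have e : -κ ^ 2 = (Complex.I * κ) ^ 2 := by rw [mul_pow, hI2]; ring
    rw [e, DD_sq, Complex.cosh, mu, mu]
    have h3 : Complex.I ^ (((3 : Fin 4) : ℕ)) * κ = -(Complex.I * κ) := by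
      rw [show (((3 : Fin 4) : ℕ)) = 3 from rfl, hI3]; ring
    have h1 : Complex.I ^ (((1 : Fin 4) : ℕ)) * κ = Complex.I * κ := by
      rw [show (((1 : Fin 4) : ℕ)) = 1 from rfl, pow_one]
    rw [h3, h1, mul_neg]
    ring
  have e3 : mu κ 0 * mu κ 2 = 1 := by
    rw [mu, mu, ← Complex.exp_add]
    have : 2 * (Real.pi : ℂ) * (Complex.I ^ (((0 : Fin 4) : ℕ)) * κ) +
        2 * Real.pi * (Complex.I ^ (((2 : Fin 4) : ℕ)) * κ) = 0 := by
      rw [show (((2 : Fin 4) : ℕ)) = 2 from rfl, show (((0 : Fin 4) : ℕ)) = 0 from rfl, hI2]; ring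
    rw [this, Complex.exp_zero]
  have e4 : mu κ 1 * mu κ 3 = 1 := by
    rw [mu, mu, ← Complex.exp_add]
    have : 2 * (Real.pi : ℂ) * (Complex.I ^ (((1 : Fin 4) : ℕ)) * κ) +
        2 * Real.pi * (Complex.I ^ (((3 : Fin 4) : ℕ)) * κ) = 0 := by
      rw [show (((3 : Fin 4) : ℕ)) = 3 from rfl, show (((1 : Fin 4) : ℕ)) = 1 from rfl, hI3]; ring
    rw [this, Complex.exp_zero]
  rw [Fin.prod_univ_four, QQ, e1, e2]
  linear_combination (r - mu κ 1) * (r - mu κ 3) * e3 +
    (r ^ 2 - r * (mu κ 0 + mu κ 2) + 1) * e4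

lemma differentiable_entry (r : ℂ) (i j : Fin 4) :
    Differentiable ℂ (fun κ : ℂ => (r • (1 : Matrix (Fin 4) (Fin 4) ℂ) - TT (κ ^ 4)) i j) := by
  have h : Differentiable ℂ (fun l : ℂ => TT l i j) := by
    have := YY_diff j (2 * Real.pi)
    exact (differentiable_pi.mp this) i
  have h2 : Differentiable ℂ (fun κ : ℂ => TT (κ ^ 4) i j) :=
    h.comp (by fun_prop : Differentiable ℂ fun κ : ℂ => κ ^ 4)
  simp only [Matrix.sub_apply]
  exact (differentiable_const _).sub h2

lemma differentiable_charP (r : ℂ) : Differentiable ℂ (fun κ : ℂ => charP (TT (κ ^ 4)) r) := by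
  unfold charP
  simp only [Matrix.det_apply]
  apply Differentiable.fun_sum
  intro σ _
  apply Differentiable.const_smul
  apply Differentiable.fun_finsetProd
  intro i _
  exact differentiable_entry r _ _

theorem charP_eq (κ r : ℂ) : charP (TT (κ ^ 4)) r = QQ κ r := by
  have h1 : AnalyticOnNhd ℂ (fun κ : ℂ => charP (TT (κ ^ 4)) r) univ :=
    fun z _ => (differentiable_charP r).analyticAt z
  have hQ : Differentiable ℂ (fun κ : ℂ => QQ κ r) := by
    unfold QQ
    have hD := differentiable_DD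
    have d1 : Differentiable ℂ (fun κ : ℂ => DD (κ ^ 2)) := hD.comp (by fun_prop)
    have d2 : Differentiable ℂ (fun κ : ℂ => DD (-κ ^ 2)) := hD.comp (by fun_prop)
    fun_prop
  have h2 : AnalyticOnNhd ℂ (fun κ : ℂ => QQ κ r) univ := fun z _ => hQ.analyticAt z
  have h3 : (fun κ : ℂ => charP (TT (κ ^ 4)) r) =ᶠ[𝓝 (2 + Complex.I)] (fun κ : ℂ => QQ κ r) := by
    have hc : Continuous (fun κ : ℂ => (κ ^ 4).im) := Complex.continuous_im.comp (by fun_prop)
    have h0 : ((2 + Complex.I) ^ 4).im ≠ 0 := by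
      have : (2 + Complex.I) ^ 4 = -7 + 24 * Complex.I := by
        have hI2 : Complex.I ^ 2 = -1 := Complex.I_sq
        have : (2 + Complex.I) ^ 2 = 3 + 4 * Complex.I := by linear_combination hI2
        calc (2 + Complex.I) ^ 4 = ((2 + Complex.I) ^ 2) ^ 2 := by ring
          _ = (3 + 4 * Complex.I) ^ 2 := by rw [this]
          _ = _ := by linear_combination 16 * hI2
      rw [this]
      simp
    filter_upwards [hc.continuousAt.eventually_ne h0] with κ hκ
    rw [charP_eq_generic κ hκ, prod_mu]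
  exact congrFun (AnalyticOnNhd.eq_of_eventuallyEq h1 h2 h3) κ

/-! ### Conclusion -/

lemma iter_two (f : ℝ → ℂ) : iteratedDeriv 2 f = deriv (deriv f) := by
  rw [iteratedDeriv_succ, iteratedDeriv_one]

lemma polyHill_sq (q f : ℝ → ℂ) (x : ℝ) :
    polyHill (Polynomial.X ^ 2) q f x = hill q (hill q f) x := by
  rw [polyHill, Polynomial.natDegree_X_pow, Finset.sum_range_succ, Finset.sum_range_succ,
    Finset.sum_range_succ, Finset.sum_range_zero]
  simp [Polynomial.coeff_X_pow]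

lemma no_hill : ¬ ∃ q : ℝ → ℂ, ContDiff ℝ 2 q ∧
    ∀ f : ℝ → ℂ, ContDiff ℝ (⊤ : ℕ∞) f → ∀ x, opL 4 pp f x = polyHill (Polynomial.X ^ 2) q f x := by
  rintro ⟨q, hq, h⟩
  have hq1 : Differentiable ℝ q := hq.differentiable (by norm_num)
  have hq2 : Differentiable ℝ (deriv q) := by
    have := hq.differentiable_iteratedDeriv 1 (by norm_num)
    rwa [iteratedDeriv_one] at this
  -- the function 1
  have h1 : ∀ x, ee x = deriv (deriv q) x + q x * q x := by
    intro x
    have := h (fun _ => 1) contDiff_const x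
    rw [opL_eq, polyHill_sq] at this
    have e1 : hill q (fun _ => 1) = q := by
      funext y
      rw [hill, iter_two]
      simp
    rw [e1, hill, iter_two] at this
    have e2 : iteratedDeriv 4 (fun _ : ℝ => (1 : ℂ)) x = 0 := by
      rw [iteratedDeriv_const]; simp
    rw [e2] at this
    simpa using this
  -- the function x
  have h2 : ∀ x : ℝ, ee x * x = x * deriv (deriv q) x + 2 * deriv q x + q x * (q x * x) := by
    intro x
    have hid : ContDiff ℝ (⊤ : ℕ∞) (fun x : ℝ => (x : ℂ)) := Complex.ofRealCLM.contDiff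
    have hd : ∀ y : ℝ, HasDerivAt (fun x : ℝ => (x : ℂ)) 1 y := fun y =>
      Complex.ofRealCLM.hasDerivAt (x := y)
    have := h (fun x : ℝ => (x : ℂ)) hid x
    rw [opL_eq, polyHill_sq] at this
    have d1 : deriv (fun x : ℝ => (x : ℂ)) = fun _ => 1 := funext fun y => (hd y).deriv
    have d2 : deriv (deriv (fun x : ℝ => (x : ℂ))) = fun _ => 0 := by
      rw [d1]; funext y; simp
    have e1 : hill q (fun x : ℝ => (x : ℂ)) = fun x => q x * x := by
      funext y
      rw [hill, iter_two, d2]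
      simp
    have e2 : deriv (fun x : ℝ => q x * (x : ℂ)) = fun x => deriv q x * x + q x := by
      funext y
      have := ((hq1 y).hasDerivAt.mul (hd y)).deriv
      rw [mul_one] at this
      exact this
    have e3 : deriv (deriv (fun x : ℝ => q x * (x : ℂ))) x =
        x * deriv (deriv q) x + 2 * deriv q x := by
      rw [e2]
      have := (((hq2 x).hasDerivAt.fun_mul (hd x)).fun_add (hq1 x).hasDerivAt).deriv
      rw [this]; ring
    have e4 : iteratedDeriv 4 (fun x : ℝ => (x : ℂ)) x = 0 := by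
      rw [iteratedDeriv_succ, iteratedDeriv_succ, iter_two, d2]
      simp
    rw [e1, e4, hill, iter_two, e3, zero_add] at this
    exact this
  have h3 : ∀ x, deriv q x = 0 := by
    intro x
    have := h2 x
    rw [h1 x] at this
    have h4 : 2 * deriv q x = 0 := by linear_combination -this
    simpa using h4
  have h4 : ∀ x, q x = q 0 := fun x => is_const_of_deriv_eq_zero hq1 h3 x 0
  have h5 : deriv (deriv q) = fun _ => 0 := by
    have : deriv q = fun _ => 0 := funext h3
    rw [this]; funext y; simp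
  have h6 := h1 0
  have h7 := h1 Real.pi
  rw [h5] at h6 h7
  rw [h4 Real.pi] at h7
  have e0 : ee 0 = 1 := by simp [ee]
  have epi : ee Real.pi = -1 := by rw [ee, Complex.exp_pi_mul_I]
  rw [e0] at h6
  rw [epi] at h7
  have h8 : (1 : ℂ) = -1 := h6.trans h7.symm
  norm_num at h8

lemma branchProd_eq (κ r : ℂ) : branchProd (Polynomial.X ^ 2) DD (κ ^ 4) r =
    (r + r⁻¹ - DD (κ ^ 2)) * (r + r⁻¹ - DD (-κ ^ 2)) := by
  have e : (Polynomial.X ^ 2 - Polynomial.C (κ ^ 4) : Polynomial ℂ) =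
      (Polynomial.X - Polynomial.C (κ ^ 2)) * (Polynomial.X - Polynomial.C (-κ ^ 2)) := by
    have : (Polynomial.C (κ ^ 4) : Polynomial ℂ) = Polynomial.C (κ ^ 2) * Polynomial.C (κ ^ 2) := by
      rw [← Polynomial.C_mul]; congr 1; ring
    rw [this, Polynomial.C_neg]
    ring
  rw [branchProd, e, Polynomial.roots_mul (mul_ne_zero (Polynomial.X_sub_C_ne_zero _)
    (Polynomial.X_sub_C_ne_zero _)), Polynomial.roots_X_sub_C, Polynomial.roots_X_sub_C]
  simp

lemma exists_fourth_root (l : ℂ) : ∃ κ : ℂ, κ ^ 4 = l := by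
  obtain ⟨z, hz⟩ := IsAlgClosed.exists_pow_nat_eq l (n := 4) (by norm_num)
  exact ⟨z, hz⟩

/-- The negated form of Q1. -/
theorem result : ∃ (ν : ℕ) (b : ℝ) (p : Fin (2 * ν - 1) → ℝ → ℂ) (R : Polynomial ℂ) (Δ : ℂ → ℂ),
    0 < b ∧ (∀ k, ContDiff ℝ (⊤ : ℕ∞) (p k)) ∧ (∀ k x, p k (x + b) = p k x) ∧
    R.Monic ∧ R.natDegree = ν ∧ Differentiable ℂ Δ ∧
    (∀ lam, ∃! T, IsFloquet (2 * ν) b p lam T) ∧
    (∀ lam T, IsFloquet (2 * ν) b p lam T → ∀ r, r ≠ 0 →
      (charP T r = 0 ↔ branchProd R Δ lam r = 0)) ∧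
    ¬ ∃ q : ℝ → ℂ, ContDiff ℝ 2 q ∧
      ∀ f : ℝ → ℂ, ContDiff ℝ (⊤ : ℕ∞) f → ∀ x, opL (2 * ν) p f x = polyHill R q f x := by
  refine ⟨2, 2 * Real.pi, pp, Polynomial.X ^ 2, DD, Real.two_pi_pos, ?_, ?_,
    Polynomial.monic_X_pow 2, Polynomial.natDegree_X_pow 2, differentiable_DD, ?_, ?_, no_hill⟩
  · intro k
    have : ContDiff ℝ (⊤ : ℕ∞) ee := by
      unfold ee
      exact (Complex.ofRealCLM.contDiff.mul contDiff_const).cexp
    fin_cases k
    · exact this
    · exact contDiff_const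
    · exact contDiff_const
  · intro k x
    have : ee (x + 2 * Real.pi) = ee x := by
      rw [ee, ee]
      have e : ((x + 2 * Real.pi : ℝ) : ℂ) * Complex.I = x * Complex.I +
          2 * Real.pi * Complex.I := by push_cast; ring
      rw [e, Complex.exp_add, Complex.exp_two_pi_mul_I, mul_one]
    fin_cases k
    · exact this
    · rfl
    · rfl
  · intro l
    refine ⟨TT l, (isFloquet_iff l _).mpr rfl, fun T hT => (isFloquet_iff l T).mp hT⟩
  · intro l T hT r hr
    obtain ⟨κ, rfl⟩ := exists_fourth_root l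
    have hT' : T = TT (κ ^ 4) := (isFloquet_iff _ T).mp hT
    rw [hT', branchProd_eq]
    have e : charP (TT (κ ^ 4)) r = r ^ 2 * ((r + r⁻¹ - DD (κ ^ 2)) * (r + r⁻¹ - DD (-κ ^ 2))) := by
      rw [charP_eq, QQ]
      field_simp
      ring
    have h2 : charP (TT (κ ^ 4)) r = 0 ↔
        (r + r⁻¹ - DD (κ ^ 2)) * (r + r⁻¹ - DD (-κ ^ 2)) = 0 := by
      rw [e, mul_eq_zero]
      constructor
      · rintro (h | h)
        · exact absurd h (pow_ne_zero 2 hr)
        · exact h
      · exact Or.inr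
    exact h2

end

end Pool.Agent.Results.MP_214325_an.QuarticExample
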